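import Pool.Agent.Helper41.GN.Anti

/-!
# `Λ(E, s)` is not the image of a function with almost all zeros on the critical line (`K = ℚ`)

`E : y² = x³ + a x + b` is any elliptic curve over `ℚ`, `N` is its conductor, `f ∈ S_2(Γ₀(N))` is its newform
and `Λ(s) = N^(s/2) (2π)^(-s) Γ(s) L(E, s)` is its completed `L`-function.  If the Riemann hypothesis holds for
`Λ`, then it holds for the derivatives of `Λ`, for `Λ(s + h) + Λ(s - h)` and, more generally, for
`φ(i d/ds) Λ`, where `φ` is any function of the Laguerre-Polya class (Polya, de Bruijn).  The theorem says that, as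
soon as `φ` has a zero, `Λ` is not of the form `φ(i d/ds) M` with a function `M` almost all of whose zeros are on
the line.  (The zero-free functions of the class are the `c e^(β x - λ x²)`, where this is the theory of the de
Bruijn-Newman constant.)

This finishes the project of the starting modules `Pool.Agent.*.GN.*` (helper963 and others), which contain the
reduction to Hadamard's factorisation, the estimates for the kernel of a cusp form and the main steps of the proof.
-/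

set_option autoImplicit false

open UpperHalfPlane hiding I
open Complex Filter Topology MeasureTheory MatrixGroups CongruenceSubgroup Polynomial
open scoped ComplexConjugate

namespace Pool.Agent.Helper41.Old.LaguerrePolyaPreimages

/-- The coefficient `a_p` of `E : y² = x³ + a x + b` at a prime `p ∤ 2 (4a³ + 27b²)`: `p` minus the
number of pairs `(x, y)` modulo `p` with `y² = x³ + a x + b`. -/
noncomputable def ap (a b : ℤ) (p : ℕ) : ℤ :=
  (p : ℤ) - Nat.card {x : ZMod p × ZMod p //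
    x.2 ^ 2 = x.1 ^ 3 + (a : ZMod p) * x.1 + (b : ZMod p)}

/-- The `n`-th Fourier coefficient of `f`. -/
noncomputable def coef {N : ℕ} (f : CuspForm (Gamma0 N : Subgroup (GL (Fin 2) ℝ)) 2) (n : ℕ) : ℂ :=
  (qExpansion 1 f).coeff n

/-- `f ∈ S_2(Γ₀(N))` is the newform of the elliptic curve `E : y² = x³ + a x + b`: the Fourier
coefficients `c(n)` of `f` are real with `c(1) = 1`, they satisfy the Hecke relations
`c(mn) = c(m) c(n)` for coprime `m`, `n` and `c(p^(j+2)) = c(p) c(p^(j+1)) - p c(p^j)` (without the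
last term if `p ∣ N`), `f` is an eigenfunction of the Fricke involution:
`f(-1/(Nτ)) = -w N τ² f(τ)` with `w = ±1`, and for all primes `p ∤ 2 (4a³ + 27b²)` one has `p ∤ N`
and `c(p) = a_p(E)`. -/
structure IsFormOf (a b : ℤ) (N : ℕ) (f : CuspForm (Gamma0 N : Subgroup (GL (Fin 2) ℝ)) 2) :
    Prop where
  one : coef f 1 = 1
  real : ∀ n, (coef f n).im = 0
  mul : ∀ m n : ℕ, Nat.Coprime m n → coef f (m * n) = coef f m * coef f n
  pow : ∀ p j : ℕ, p.Prime → coef f (p ^ (j + 2)) = coef f p * coef f (p ^ (j + 1)) -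
      (if p ∣ N then 0 else (p : ℂ) * coef f (p ^ j))
  fricke : ∃ w : ℝ, (w = 1 ∨ w = -1) ∧ ∀ τ τ' : ℍ, (τ' : ℂ) * ((N : ℂ) * (τ : ℂ)) = -1 →
    f τ' = -(w : ℂ) * (N : ℂ) * (τ : ℂ) ^ 2 * f τ
  points : ∀ p : ℕ, p.Prime → ¬ (p : ℤ) ∣ 2 * (4 * a ^ 3 + 27 * b ^ 2) →
    ¬ p ∣ N ∧ coef f p = (ap a b p : ℂ)

open Classical in
/-- The local factor of `L(E, s)` at the prime `p`: `(1 - a_p p^(-s) + p^(1-2s))⁻¹` with the number of points
`a_p` for `p ∤ 2 (4a³ + 27b²)`, and otherwise `(1 - c(p) p^(-s) + p^(1-2s))⁻¹`, without the last term if `p ∣ N`. -/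
noncomputable def factor (a b : ℤ) {N : ℕ} (f : CuspForm (Gamma0 N : Subgroup (GL (Fin 2) ℝ)) 2)
    (s : ℂ) (p : Nat.Primes) : ℂ :=
  if ((p : ℕ) : ℤ) ∣ 2 * (4 * a ^ 3 + 27 * b ^ 2) then
    (1 - coef f p * ((p : ℕ) : ℂ) ^ (-s) + (if (p : ℕ) ∣ N then (0 : ℂ) else ((p : ℕ) : ℂ) ^ (1 - 2 * s)))⁻¹
  else
    (1 - ((ap a b p : ℤ) : ℂ) * ((p : ℕ) : ℂ) ^ (-s) + ((p : ℕ) : ℂ) ^ (1 - 2 * s))⁻¹

/-- `Λ` is the completed `L`-function `Λ(E, s)` of `E` over `ℚ`: the entire function with
`Λ(s) = N^(s/2) (2π)^(-s) Γ(s) L(E, s)` for `Re s > 3/2`, where `L(E, s)` is the Euler product. -/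
structure IsCompleted (a b : ℤ) {N : ℕ} (f : CuspForm (Gamma0 N : Subgroup (GL (Fin 2) ℝ)) 2)
    (Λ : ℂ → ℂ) : Prop where
  entire : Differentiable ℂ Λ
  eq : ∀ s : ℂ, 3 / 2 < s.re → Λ s = (N : ℂ) ^ (s / 2) * ((2 * Real.pi : ℝ) : ℂ) ^ (-s) * Gamma s *
    ∏' p : Nat.Primes, factor a b f s p

/-- The Laguerre-Polya class: locally uniform limits, not identically zero, of real polynomials with real zeros
only. -/
def LaguerrePolya (φ : ℂ → ℂ) : Prop := (∃ z, φ z ≠ 0) ∧ ∃ Q : ℕ → ℝ[X],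
  (∀ n (w : ℂ), aeval w (Q n) = 0 → w.im = 0) ∧
    TendstoLocallyUniformly (fun (n : ℕ) (w : ℂ) => aeval w (Q n)) φ atTop

/-- `M` is real on the line `Re s = 1`. -/
def RealOnLine (M : ℂ → ℂ) : Prop := ∀ s : ℂ, M (2 - conj s) = conj (M s)

/-- `M` is entire of order less than two. -/
def EntireOrderLtTwo (M : ℂ → ℂ) : Prop := Differentiable ℂ M ∧
  ∃ C ρ : ℝ, ρ < 2 ∧ ∀ s : ℂ, ‖M s‖ ≤ Real.exp (C * (1 + ‖s‖) ^ ρ)

/-- The zeros of `M` that are not on the line `Re s = 1`. -/
def off (M : ℂ → ℂ) : Set ℂ := {s | M s = 0 ∧ s.re ≠ 1}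

/-- `φ(i d/ds) M = F`, where `φ(i d/ds) M = ∑ φ⁽ⁿ⁾(0)/n! iⁿ M⁽ⁿ⁾`. -/
def OperatorEq (φ M F : ℂ → ℂ) : Prop := ∀ s : ℂ,
  HasSum (fun n : ℕ => iteratedDeriv n φ 0 / (n.factorial : ℂ) * (I ^ n * iteratedDeriv n M s)) (F s)

/-- The reciprocal of the characteristic function of a Polya frequency law (Schoenberg). -/
noncomputable def polya (lam β : ℝ) (r : ℕ → ℝ) (u : ℝ) : ℂ :=
  cexp (lam * u ^ 2 + I * β * u) * ∏' k, ((1 - I * r k * u) * cexp (I * r k * u))

/-! ### Proofs -/

open Pool.Agent.N963.GN Pool.Agent.Helper41.GN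

theorem local_factor (a : ℕ → ℂ) (u v : ℂ) (h0 : a 0 = 1) (h1 : a 1 = u)
    (hrec : ∀ k, a (k + 2) = u * a (k + 1) - v * a k) (hs : Summable a) :
    ∑' k, a k = (1 - u + v)⁻¹ := by
  have e1 : ∑' k, a k = a 0 + ∑' k, a (k + 1) := hs.tsum_eq_zero_add
  have hs1 : Summable (fun k => a (k + 1)) := (summable_nat_add_iff 1).mpr hs
  have e2 : ∑' k, a (k + 1) = a 1 + ∑' k, a (k + 2) := hs1.tsum_eq_zero_add
  have e3 : ∑' k, a (k + 2) = u * ∑' k, a (k + 1) - v * ∑' k, a k := by
    rw [← tsum_mul_left, ← tsum_mul_left, ← (hs1.mul_left u).tsum_sub (hs.mul_left v)]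
    exact tsum_congr hrec
  rw [h0] at e1
  rw [h1] at e2
  have key : (1 - u + v) * ∑' k, a k = 1 := by linear_combination (1 - u) * e1 + e2 + e3
  exact eq_inv_of_mul_eq_one_right key

theorem euler {a b : ℤ} {N : ℕ} [NeZero N] {f : CuspForm (Gamma0 N : Subgroup (GL (Fin 2) ℝ)) 2}
    (hf : IsFormOf a b N f) {s : ℂ} (hsum : LSeriesSummable (coef f) s) :
    LSeries (coef f) s = ∏' p : Nat.Primes, factor a b f s p := by
  set t : ℕ → ℂ := LSeries.term (coef f) s with ht
  have hval : ∀ n : ℕ, n ≠ 0 → t n = coef f n * (n : ℂ) ^ (-s) := by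
    intro n hn
    rw [ht, LSeries.term_of_ne_zero hn, cpow_neg, div_eq_mul_inv]
  have h0 : t 0 = 0 := LSeries.term_zero _ _
  have h1 : t 1 = 1 := by
    rw [hval 1 one_ne_zero, hf.one]
    simp
  have hmul : ∀ {m n : ℕ}, m.Coprime n → t (m * n) = t m * t n := by
    intro m n hmn
    rcases eq_or_ne m 0 with rfl | hm
    · simp [h0]
    rcases eq_or_ne n 0 with rfl | hn
    · simp [h0]
    rw [hval _ (mul_ne_zero hm hn), hval m hm, hval n hn, hf.mul m n hmn]
    push_cast
    rw [Complex.natCast_mul_natCast_cpow]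
    ring
  have hprod := EulerProduct.eulerProduct_tprod h1 hmul hsum.norm h0
  have hL : LSeries (coef f) s = ∑' n, t n := rfl
  rw [hL, ← hprod]
  refine tprod_congr fun p => ?_
  obtain ⟨p, hp⟩ := p
  simp only
  have hp0 : (p : ℂ) ≠ 0 := Nat.cast_ne_zero.mpr hp.ne_zero
  set Y : ℂ := (p : ℂ) ^ (-s) with hY
  have hvp : ∀ e : ℕ, t (p ^ e) = coef f (p ^ e) * Y ^ e := by
    intro e
    rw [hval _ (pow_ne_zero e hp.ne_zero)]
    congr 1
    rw [hY]
    induction e with
    | zero => simp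
    | succ e ih =>
      rw [pow_succ, pow_succ, ← ih]
      push_cast
      rw [show ((p : ℂ) ^ e) = ((p ^ e : ℕ) : ℂ) by push_cast; rfl, Complex.natCast_mul_natCast_cpow]
  have hpow : Summable (fun e => t (p ^ e)) := hsum.comp_injective (Nat.pow_right_injective hp.two_le)
  have hY2 : (p : ℂ) * Y ^ 2 = (p : ℂ) ^ (1 - 2 * s) := by
    rw [Complex.cpow_sub _ _ hp0, Complex.cpow_one, hY, Complex.cpow_neg, inv_pow, ← Complex.cpow_nat_mul,
      div_eq_mul_inv]
    norm_num
  have key := local_factor (fun e => t (p ^ e)) (coef f p * Y) (if p ∣ N then 0 else (p : ℂ) * Y ^ 2)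
    (by simpa using h1) (by simpa using hvp 1) (by
      intro k
      simp only [hvp]
      rw [hf.pow p k hp]
      split_ifs
      · ring
      · ring) hpow
  rw [key]
  unfold factor
  simp only
  by_cases hd : (p : ℤ) ∣ 2 * (4 * a ^ 3 + 27 * b ^ 2)
  · rw [if_pos hd, hY2]
  · obtain ⟨hpN, hc⟩ := hf.points p hp hd
    rw [if_neg hd, if_neg hpN, hc, hY2]

/-- The comparison with the transform of the kernel. -/
theorem compare {a b : ℤ} {N : ℕ} [NeZero N] {f : CuspForm (Gamma0 N : Subgroup (GL (Fin 2) ℝ)) 2}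
    (hf : IsFormOf a b N f) {Λ : ℂ → ℂ} (hΛ : IsCompleted a b f Λ) :
    ∃ (K : ℂ → ℂ) (α : ℝ) (κ : ℂ), Kern K α ∧ MS K α ∧ LD (Lt (fun u : ℝ => K (u : ℂ))) ∧ κ ≠ 0 ∧
      ∀ z : ℂ, Lt (fun u : ℝ => K (u : ℂ)) z = κ * Λ (1 + I * z) := by
  obtain ⟨κ, h⟩ := data f hf.real hf.one hf.fricke
  have hK : Kern (Km N 2 (fun w => f (ofComplex w)) κ) (Real.pi / 2) := Pool.Agent.N498.GN.M1 _ _ _ _ _ h
  refine ⟨_, _, κ, hK, ms_of h, Pool.Agent.N348.GN.m3 _ _ _ _ _ h, h.κ0, ?_⟩
  have hd1 : Differentiable ℂ (Lt (fun u : ℝ => Km N 2 (fun w => f (ofComplex w)) κ (u : ℂ))) :=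
    diff_Lt hK.wt
  have hd2 : Differentiable ℂ (fun z => κ * Λ (1 + I * z)) := by
    have := hΛ.entire
    fun_prop
  have hev : ∀ z : ℂ, z.im < -4 → Lt (fun u : ℝ => Km N 2 (fun w => f (ofComplex w)) κ (u : ℂ)) z =
      κ * Λ (1 + I * z) := by
    intro z hz
    have hre : (1 + I * z).re = 1 - z.im := by simp [sub_eq_add_neg]
    have e1 : ((2 : ℕ) : ℂ) / 2 + I * z = 1 + I * z := by norm_num
    rw [Pool.Agent.N348.GN.Lt_formula h (by rw [e1, hre]; norm_num; linarith), e1,
      hΛ.eq _ (by rw [hre]; linarith)]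
    have hs := Pool.Agent.N348.GN.summ h (s := 1 + I * z) (by rw [hre]; norm_num; linarith)
    have h2 := euler hf (s := 1 + I * z) hs
    have h3 : LSeries (fun n => (qExpansion 1 f).coeff n) (1 + I * z) =
      ∏' p : Nat.Primes, factor a b f (1 + I * z) p := h2
    rw [h3]
    have hN0 : (0 : ℝ) ≤ N := Nat.cast_nonneg N
    have hNp : (0 : ℝ) < Real.sqrt N := Real.sqrt_pos.2 (by exact_mod_cast Nat.pos_of_ne_zero (NeZero.ne N))
    have h4 : ((2 * Real.pi / Real.sqrt N : ℝ) : ℂ) ^ (-(1 + I * z)) =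
        (N : ℂ) ^ ((1 + I * z) / 2) * ((2 * Real.pi : ℝ) : ℂ) ^ (-(1 + I * z)) := by
      have h5 : (2 * Real.pi / Real.sqrt N : ℝ) = (2 * Real.pi) * (Real.sqrt N)⁻¹ := by ring
      rw [h5, Complex.ofReal_mul, Complex.mul_cpow_ofReal_nonneg (by positivity) (by positivity), mul_comm]
      congr 1
      have hsq : (N : ℂ) = (((Real.sqrt N : ℝ) : ℂ)) ^ ((2 : ℕ) : ℂ) := by
        rw [Complex.cpow_natCast]
        have := Real.sq_sqrt hN0
        exact_mod_cast this.symm
      have hlog : ((Real.sqrt N : ℝ) : ℂ) ≠ 0 := by exact_mod_cast hNp.ne'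
      rw [Complex.ofReal_inv, Complex.inv_cpow _ _ (by
        rw [Complex.arg_ofReal_of_nonneg hNp.le]
        exact Real.pi_pos.ne), Complex.cpow_neg, inv_inv]
      have hNc : (N : ℂ) ≠ 0 := by exact_mod_cast NeZero.ne N
      rw [Complex.cpow_def_of_ne_zero hlog, Complex.cpow_def_of_ne_zero hNc]
      congr 1
      have h6 : Complex.log (N : ℂ) = 2 * Complex.log ((Real.sqrt N : ℝ) : ℂ) := by
        rw [← Complex.ofReal_natCast N, ← Complex.ofReal_log hN0, ← Complex.ofReal_log hNp.le,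
          Real.log_sqrt hN0]
        push_cast
        ring
      rw [h6]
      ring
    rw [h4]
    ring
  have hA : AnalyticOnNhd ℂ (Lt (fun u : ℝ => Km N 2 (fun w => f (ofComplex w)) κ (u : ℂ))) Set.univ :=
    fun z _ => hd1.analyticAt z
  have hB : AnalyticOnNhd ℂ (fun z => κ * Λ (1 + I * z)) Set.univ := fun z _ => hd2.analyticAt z
  have hfin := hA.eqOn_of_preconnected_of_eventuallyEq hB isPreconnected_univ (Set.mem_univ (-(5 : ℂ) * I)) (by
    have h7 : ∀ᶠ z : ℂ in 𝓝 (-(5 : ℂ) * I), z.im < -4 := by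
      have h8 : Continuous (fun z : ℂ => z.im) := Complex.continuous_im
      have h9 : (-(5 : ℂ) * I).im < -4 := by simp; norm_num
      exact h8.continuousAt.eventually_lt continuousAt_const h9
    exact h7.mono fun z hz => hev z hz)
  exact fun z => hfin (Set.mem_univ z)

/-- From the `z`-plane to the `s`-plane. -/
theorem off_infinite {M : ℂ → ℂ} (h : (NRZ (fun z => M (1 + I * z))).Infinite) : (off M).Infinite := by
  have hinj : Function.Injective (fun z : ℂ => 1 + I * z) := by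
    intro x y hxy
    have := Complex.I_ne_zero
    simpa using hxy
  refine (h.image hinj.injOn).mono ?_
  rintro _ ⟨z, ⟨hz1, hz2⟩, rfl⟩
  refine ⟨hz1, ?_⟩
  have : (1 + I * z).re = 1 - z.im := by simp [sub_eq_add_neg]
  simp only
  rw [this]
  intro h0
  apply hz2
  linarith

theorem sym_of {M : ℂ → ℂ} (h : RealOnLine M) : Sym (fun z => M (1 + I * z)) := by
  intro z
  have h1 := h (1 + I * z)
  simp only
  rw [← h1]
  congr 1
  simp only [map_add, map_one, map_mul, Complex.conj_I]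
  ring

theorem gr2_of {M : ℂ → ℂ} (h : EntireOrderLtTwo M) : Differentiable ℂ (fun z => M (1 + I * z)) ∧
    Gr2 (fun z => M (1 + I * z)) := by
  obtain ⟨hd, C, ρ, hρ, hb⟩ := h
  refine ⟨by fun_prop, |C| * 2 ^ (max ρ 0), max ρ 0, by positivity, le_max_right _ _,
    max_lt hρ (by norm_num), fun z => ?_⟩
  refine (hb _).trans (Real.exp_le_exp.2 ?_)
  have h1 : 1 + ‖1 + I * z‖ ≤ 2 * (1 + ‖z‖) := by
    have h2 := norm_add_le (1 : ℂ) (I * z)
    rw [norm_one, norm_mul, Complex.norm_I, one_mul] at h2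
    linarith [norm_nonneg z]
  have h3 : (1 + ‖1 + I * z‖) ^ ρ ≤ (2 * (1 + ‖z‖)) ^ (max ρ 0) :=
    (Real.rpow_le_rpow_of_exponent_le (by linarith [norm_nonneg (1 + I * z)]) (le_max_left _ _)).trans
      (Real.rpow_le_rpow (by positivity) h1 (le_max_right _ _))
  rw [Real.mul_rpow (by norm_num) (by positivity)] at h3
  calc C * (1 + ‖1 + I * z‖) ^ ρ ≤ |C| * (1 + ‖1 + I * z‖) ^ ρ := by
        gcongr
        exact le_abs_self C
    _ ≤ |C| * (2 ^ (max ρ 0) * (1 + ‖z‖) ^ (max ρ 0)) := by gcongr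
    _ = _ := by ring

theorem iter_shift {M : ℂ → ℂ} (hM : Differentiable ℂ M) (n : ℕ) :
    ∀ z, iteratedDeriv n (fun z => M (1 + I * z)) z = I ^ n * iteratedDeriv n M (1 + I * z) := by
  induction n with
  | zero => intro z; simp
  | succ n ih =>
    intro z
    rw [iteratedDeriv_succ, funext ih, iteratedDeriv_succ]
    have h1 : HasDerivAt (iteratedDeriv n M) (deriv (iteratedDeriv n M) (1 + I * z)) (1 + I * z) := by
      have h2 : Differentiable ℂ (iteratedDeriv n M) :=
        (hM.contDiff (n := (n + 1 : ℕ))).differentiable_iteratedDeriv n (by exact_mod_cast Nat.lt_succ_self n)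
      exact (h2 _).hasDerivAt
    have h3 : HasDerivAt (fun z : ℂ => 1 + I * z) I z := by
      have := ((hasDerivAt_id z).const_mul I).const_add 1
      simpa using this
    have h4 := (h1.comp z h3).const_mul (I ^ n)
    have h5 := h4.deriv
    simp only [Function.comp_def] at h5
    rw [h5]
    ring

/-- The main theorem with its consequences. Let `E : y² = x³ + a x + b` be an elliptic curve over `ℚ`, `f` its newform and `Λ` its completed
`L`-function over `K = ℚ`.

(1) If `φ` is in the Laguerre-Polya class and has a zero, then every entire function `M` of order less than two,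
real on the line `Re s = 1`, such that `φ(i d/ds) M` is a nonzero constant multiple of `Λ`, has infinitely many
zeros off the line `Re s = 1`.

(2) Every entire function whose derivative is a nonzero constant multiple of `Λ` has infinitely many zeros off the
line.

(3) The same holds for every entire function `M` of order less than two, real on the line, such that, for some
`h ≠ 0`, `M(s + h) + M(s - h)` is a nonzero constant multiple of `Λ(s)`.

(4) The average `∫ Λ(s - i t) dμ(t)` of `Λ` over vertical translations has infinitely many zeros off the line for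
every finite measure `μ` whose Fourier transform `∫ e^(-iut) dμ(t)` is the reciprocal of
`e^(λ u² + i β u) ∏ (1 - i r_k u) e^(i r_k u)`, `λ ≥ 0`, `∑ r_k² < ∞`, with some `r_k ≠ 0`. -/
theorem all_parts (a b : ℤ) (_hE : 4 * a ^ 3 + 27 * b ^ 2 ≠ 0) (N : ℕ) [NeZero N]
    (f : CuspForm (Gamma0 N : Subgroup (GL (Fin 2) ℝ)) 2) (hf : IsFormOf a b N f)
    (Λ : ℂ → ℂ) (hΛ : IsCompleted a b f Λ) :
    (∀ φ : ℂ → ℂ, LaguerrePolya φ → (∃ x, φ x = 0) → ∀ M : ℂ → ℂ, EntireOrderLtTwo M → RealOnLine M →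
      ∀ c : ℂ, c ≠ 0 → OperatorEq φ M (fun s => c * Λ s) → (off M).Infinite) ∧
    (∀ M : ℂ → ℂ, Differentiable ℂ M → ∀ c : ℂ, c ≠ 0 → (∀ s, deriv M s = c * Λ s) → (off M).Infinite) ∧
    (∀ M : ℂ → ℂ, EntireOrderLtTwo M → RealOnLine M → ∀ h : ℝ, h ≠ 0 → ∀ c : ℂ, c ≠ 0 →
      (∀ s, M (s + h) + M (s - h) = c * Λ s) → (off M).Infinite) ∧
    (∀ (μ : Measure ℝ) [IsFiniteMeasure μ] (lam β : ℝ) (r : ℕ → ℝ), 0 ≤ lam → Summable (fun k => r k ^ 2) →
      (∃ k, r k ≠ 0) → (∀ u : ℝ, ∫ t, cexp (-(I * u * t)) ∂μ = 1 / polya lam β r u) →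
      (off (fun s => ∫ t, Λ (s - I * (t : ℝ)) ∂μ)).Infinite) := by
  obtain ⟨K, α, κ, hK, hM, hL, hκ, hX⟩ := compare hf hΛ
  have main : ∀ φ : ℂ → ℂ, LPc φ → (∃ x, φ x = 0) → ∀ M : ℂ → ℂ, EntireOrderLtTwo M → RealOnLine M →
      ∀ c : ℂ, c ≠ 0 → (∀ z : ℂ, HasSum (trm φ (fun z => M (1 + I * z)) z) (c * Λ (1 + I * z))) →
      (off M).Infinite := by
    intro φ hφ hz M hMo hMr c hc he
    apply off_infinite
    obtain ⟨hd, hg⟩ := gr2_of hMo
    refine op_const hK hM hL hφ hz hd (sym_of hMr) hg (c := c / κ) (div_ne_zero hc hκ) fun z => ?_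
    rw [hX, ← mul_assoc, div_mul_cancel₀ _ hκ]
    exact he z
  refine ⟨?_, ?_, ?_, ?_⟩
  · intro φ hφ hz M hMo hMr c hc he
    refine main φ hφ hz M hMo hMr c hc fun z => ?_
    have h1 := he (1 + I * z)
    refine h1.congr_fun fun n => ?_
    unfold trm
    rw [iter_shift hMo.1]
  · intro M hMd c hc he
    -- normalise: `H(z) = (κ / (i c)) M(1 + i z)` satisfies `H' = X`
    have hic : I * c ≠ 0 := mul_ne_zero Complex.I_ne_zero hc
    have hd : ∀ z, HasDerivAt (fun z => κ / (I * c) * M (1 + I * z)) (Lt (fun u : ℝ => K (u : ℂ)) z) z := by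
      intro z
      have h3 : HasDerivAt (fun z : ℂ => 1 + I * z) I z := by
        have := ((hasDerivAt_id z).const_mul I).const_add 1
        simpa using this
      have h4 := (((hMd _).hasDerivAt (x := 1 + I * z)).comp z h3).const_mul (κ / (I * c))
      rw [he] at h4
      have e : κ / (I * c) * (c * Λ (1 + I * z) * I) = Lt (fun u : ℝ => K (u : ℂ)) z := by
        rw [hX]
        field_simp
      rw [e] at h4
      exact h4
    have h := anti hK hM hL (H := fun z => κ / (I * c) * M (1 + I * z)) (fun z => (hd z).differentiableAt)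
      (fun z => (hd z).deriv)
    apply off_infinite
    convert h using 1
    ext z
    simp only [NRZ, Set.mem_ofPred_eq, mul_eq_zero, div_ne_zero hκ hic, false_or]
  · intro M hMo hMr h hh c hc he
    refine main _ (lpc_cos hh) ⟨(Real.pi / 2 / h : ℝ), ?_⟩ M hMo hMr c hc fun z => ?_
    · have h1 : (h : ℂ) * ((Real.pi / 2 / h : ℝ) : ℂ) = (Real.pi : ℂ) / 2 := by
        have : (h : ℂ) ≠ 0 := by exact_mod_cast hh
        push_cast
        field_simp
      rw [h1, Complex.cos_pi_div_two, mul_zero]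
    · have hd := (gr2_of hMo).1
      have h1 := trm_cos hd h z
      rw [← he (1 + I * z)]
      have e1 : 1 + I * (z + I * h) = 1 + I * z - h := by
        linear_combination (h : ℂ) * Complex.I_mul_I
      have e2 : 1 + I * (z - I * h) = 1 + I * z + h := by
        linear_combination -(h : ℂ) * Complex.I_mul_I
      rw [e1, e2, add_comm (M _)] at h1
      exact h1
  · intro μ _ lam β r hlam hr hk hμ
    obtain ⟨k0, hk0⟩ := hk
    have h := gn_avg hK hM hL hlam hr hk0 μ hμ (β := β)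
    apply off_infinite
    convert h using 1
    ext z
    have e : ∫ t, Lt (fun u : ℝ => K (u : ℂ)) (z - (t : ℝ)) ∂μ = κ * ∫ t, Λ (1 + I * z - I * (t : ℝ)) ∂μ := by
      rw [← integral_const_mul]
      congr 1
      funext t
      rw [hX]
      congr 2
      ring
    simp only [NRZ, Set.mem_ofPred_eq]
    rw [e, mul_eq_zero, or_iff_right hκ]

/-- **Main theorem.** Let `E : y² = x³ + a x + b` be an elliptic curve over `ℚ`, `f` its newform and `Λ` its completed
`L`-function over `K = ℚ`.  If `φ` is in the Laguerre-Polya class and has a zero, then every entire function `M` of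
order less than two, real on the line `Re s = 1`, such that `φ(i d/ds) M` is a nonzero constant multiple of `Λ`, has
infinitely many zeros off the line `Re s = 1`.  (Consequences for antiderivatives, for `M(s + h) + M(s - h)` and for
averages of `Λ` are in `all_parts`.) -/
theorem result (a b : ℤ) (hE : 4 * a ^ 3 + 27 * b ^ 2 ≠ 0) (N : ℕ) [NeZero N]
    (f : CuspForm (Gamma0 N : Subgroup (GL (Fin 2) ℝ)) 2) (hf : IsFormOf a b N f)
    (Λ : ℂ → ℂ) (hΛ : IsCompleted a b f Λ) :
    ∀ φ : ℂ → ℂ, LaguerrePolya φ → (∃ x, φ x = 0) → ∀ M : ℂ → ℂ, EntireOrderLtTwo M → RealOnLine M →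
      ∀ c : ℂ, c ≠ 0 → OperatorEq φ M (fun s => c * Λ s) → (off M).Infinite :=
  (all_parts a b hE N f hf Λ hΛ).1

end Pool.Agent.Helper41.Old.LaguerrePolyaPreimages
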